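import Pool.Agent.TH818.AP.Mv2
import Pool.Agent.TH818.AP.LiInd
import Pool.Agent.TH818.AP.LiLoc

/-!
# Polylogarithms at almost all rational points
-/

set_option autoImplicit false

namespace Pool.Agent.Results.MP_1eadae_ag.AlmostAllPolylogarithms

/-- `f_0(t) = log t`, and for `k ≥ 1` the polylogarithm `f_k(t) = Li_k(t) = ∑_{m ≥ 1} t^m / m^k`
(so `f_1(t) = -log(1 - t)`). -/
noncomputable def f (k : ℕ) (t : ℝ) : ℝ := if k = 0 then Real.log t else ∑' m : ℕ, t ^ (m + 1) / ((m : ℝ) + 1) ^ k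

/-- The `(w + 1) n + 1` numbers `π`, `log q_j`, `Li_1(q_j)`, …, `Li_w(q_j)`. -/
noncomputable def periods {n : ℕ} (w : ℕ) (q : Fin n → ℚ) (x : Option (Fin n × Fin (w + 1))) : ℝ :=
  match x with
  | none => Real.pi
  | some (j, k) => f (k : ℕ) (q j)

/-- The `n`-tuples `q` of rational numbers in `[a, b]` with denominators at most `T` for which some nonzero polynomial
in `(w + 1) n + 1` variables with integer coefficients of absolute value at most `T ^ A`, of degree at most `d` in each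
variable, takes at `π`, `log q_j`, `Li_k(q_j)` a value of absolute value at most `T ^ (-B)`. -/
def Exceptional (n w d : ℕ) (a b A B T : ℝ) : Set (Fin n → ℚ) :=
  {q | (∀ j, a ≤ q j ∧ q j ≤ b ∧ ((q j).den : ℝ) ≤ T) ∧
    ∃ P : MvPolynomial (Option (Fin n × Fin (w + 1))) ℤ, P ≠ 0 ∧ (∀ x, P.degreeOf x ≤ d) ∧
      (∀ s, |((P.coeff s : ℤ) : ℝ)| ≤ T ^ A) ∧ |MvPolynomial.aeval (periods w q) P| ≤ T ^ (-B)}

/-- Let `[a, b] ⊂ (0, 1)`, let `n ≥ 1`, `w`, `d`, `A ≥ 0` be given, and let `β > 2 - 2 / ((d + 1)^((w + 1) n + 1) + 1)`. There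
are `B` and `C` such that for all `T ≥ 1` the number of exceptional `n`-tuples is at most `C T^(2(n - 1) + β)`. -/
theorem result (n w d : ℕ) (hn : 1 ≤ n) (a b : ℝ) (ha : 0 < a) (hab : a < b) (hb : b < 1) (A β : ℝ) (hA : 0 ≤ A)
    (hβ : 2 - 2 / (((d : ℝ) + 1) ^ ((w + 1) * n + 1) + 1) < β) :
    ∃ B C : ℝ, ∀ T : ℝ, 1 ≤ T → (Exceptional n w d a b A B T).Finite ∧
      ((Exceptional n w d a b A B T).ncard : ℝ) ≤ C * T ^ (2 * ((n : ℝ) - 1) + β) := by
  have hf : ∀ k : Fin (w + 1), TH818.AP.pl (k : ℕ) = f (k : ℕ) := by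
    intro k
    funext t
    simp [TH818.AP.pl, f, TH818.AP.Li]
  have hind := TH818.AP.liInd_of TH818.AP.liAn TH818.AP.liLoc w d a b ha hab hb
  have hg : TH818.AP.RIndep (fun (e : Fin (w + 1) → Fin (d + 1)) (t : ℝ) =>
      ∏ i : Fin (w + 1), f (i : ℕ) t ^ (e i : ℕ)) a b := by
    have : (fun (e : Fin (w + 1) → Fin (d + 1)) (t : ℝ) => ∏ i : Fin (w + 1), f (i : ℕ) t ^ (e i : ℕ)) =
        fun e : Fin (w + 1) → Fin (d + 1) => TH818.AP.gLi e := by
      funext e t
      simp only [TH818.AP.gLi]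
      exact Finset.prod_congr rfl fun i _ => by rw [hf i]
    rw [this]
    exact hind
  have han : ∀ i : Fin (w + 1), AnalyticOnNhd ℝ (f (i : ℕ)) (Set.Icc a b) := by
    intro i t ht
    rw [← hf i]
    have ht0 : 0 < t := ha.trans_le ht.1
    have ht1 : t < 1 := lt_of_le_of_lt ht.2 hb
    by_cases hi : (i : ℕ) = 0
    · have : TH818.AP.pl (i : ℕ) = Real.log := by funext t; simp [TH818.AP.pl, hi]
      rw [this]
      exact analyticAt_log ht0
    · have : TH818.AP.pl (i : ℕ) = TH818.AP.Li (i : ℕ) := by funext t; simp [TH818.AP.pl, hi]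
      rw [this]
      exact TH818.AP.liAn _ t ⟨by linarith, ht1⟩
  obtain ⟨B, C, h⟩ := TH818.AP.polys (fun i : Fin (w + 1) => f (i : ℕ)) a b hab han hg n hn A β hA hβ
  refine ⟨B, C, fun T hT => ?_⟩
  have heq : ∀ q : Fin n → ℚ, (fun x : Option (Fin n × Fin (w + 1)) =>
      x.elim Real.pi fun y => f (y.2 : ℕ) (q y.1)) = periods w q := by
    intro q
    funext x
    cases x <;> rfl
  have := h T hT
  simp only [heq] at this
  exact this

end Pool.Agent.Results.MP_1eadae_ag.AlmostAllPolylogarithms
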