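import Pool.Agent.TH50.DQ.MeasH

/-!
# MP_1eadae_ag (Kontsevich's period conjecture): a linear independence measure for dilogarithms

For every integer `Q ≥ 3` or `Q ≤ -2` the linear forms in the periods `1, log(1 - 1/Q), Li₂(1/Q)` with integer
coefficients are bounded below by `c H^(-1000)`, where `H` is the size of the coefficients: the exponent is explicit and
does not depend on `Q`.  In particular `Li₂(1/Q)` is not a Liouville number.

The proof: for `δ = γ + α log(1 - 1/Q) + β Li₂(1/Q)` the Hankel determinants of `DilogarithmOneOverQ` are perturbed by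
`δ` times forms of explicit exponential size; an exact count of the primes and a zero estimate bound the determinant
below, the analytic bound (interpolation at explicit nodes with a rational certificate) bounds it above, and the two
bounds contradict each other as soon as `|δ|` is below a power of the coefficients (`Pool/Agent/TH50/DQ/MeasA` to
`MeasH`; the perturbation for `Q ≤ -2` as in the starting library `H297R2/LPM`).  Joint work as in
`DilogarithmOneOverQ`.
-/

set_option autoImplicit false

namespace Pool.Agent.Results.MP_1eadae_ag.DilogarithmMeasure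

/-- Let `Q` be an integer, `Q ≥ 3` or `Q ≤ -2`.  There is `c > 0` such that for all integers
`α, β, γ` with `(α, β) ≠ (0, 0)`

  `|γ + α log(1 - 1/Q) + β Li₂(1/Q)| ≥ c / max(|α|, |β|)^1000`, where `Li₂(1/Q) = ∑ 1 / (k² Q^k)` (`k ≥ 1`). -/
theorem result (Q : ℤ) (hQ : 3 ≤ Q ∨ Q ≤ -2) :
    ∃ c : ℝ, 0 < c ∧ ∀ α β γ : ℤ, (α ≠ 0 ∨ β ≠ 0) →
      c / (max |(α : ℝ)| |(β : ℝ)|) ^ 1000 ≤
        |(γ : ℝ) + α * Real.log (1 - 1 / (Q : ℝ)) +
          β * ∑' k : ℕ, (1 / (Q : ℝ)) ^ (k + 1) / ((k : ℝ) + 1) ^ 2| :=
  Pool.Agent.TH50.DQ.Mea.measure_all hQ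

end Pool.Agent.Results.MP_1eadae_ag.DilogarithmMeasure
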