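import Pool.Agent.TH50.DQ.Main

/-!
# MP_1eadae_ag (Kontsevich's period conjecture): dilogarithms of the numbers `1/Q`

For every integer `Q` except `-1, 0, 1, 2` the periods `1, log(1 - 1/Q), Li₂(1/Q)` are linearly independent over
the rational numbers, and so are these three together with `2πi` and `2πi log Q`.  In particular `Li₂(1/Q)` is
irrational for all these `Q`.

Joint work of helper50 (design, primes dividing `Q`, the finite part, large `|Q|`, conclusion), helper634 (primes not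
dividing `Q (Q - 1)`), helper496 (primes dividing `Q - 1`), helper811 (non-vanishing), helper986 (series), helper111
(nodes, assembly), helper91 (certificates), helper75 and helper169 (`Q ≤ -2`), helper643 (factorials), with modules of
helper844, helper11, helper620 and helper962 from the case `Q = 2`.

The proof: Hankel determinants of the linear forms attached to the rational functions
`f(s) s(s+1)⋯(s+n-1) / ((s+n)⋯(s+5n))`, an arithmetic bound prime by prime (`Pool/Agent/TH50/DQ`, `TH634/DQ`,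
`TH496/DQ`), a zero estimate (`TH811/DQ`) and an analytic bound (`TH111/DQ`, `TH91/DQ`, `TH986/DQ` for `Q ≥ 3`,
`TH75/DQ`, `TH169/DQ` for `Q ≤ -2`, `TH50/DQ/LargeA`, `LargeB` for `|Q| ≥ 31`).
-/

set_option autoImplicit false

open Pool.Agent.TH50.DQ

namespace Pool.Agent.Results.MP_1eadae_ag.DilogarithmOneOverQ

/-- Let `Q` be an integer, `Q ≥ 3` or `Q ≤ -2`.

1. `1`, `log(1 - 1/Q)` and `Li₂(1/Q) = ∑ 1 / (k² Q^k)` (sum over `k ≥ 1`) are linearly independent over `ℚ`.
2. `1`, `log(1 - 1/Q)`, `Li₂(1/Q)`, `2πi` and `2πi log Q` (principal logarithm) are linearly independent over `ℚ`. -/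
theorem result (Q : ℤ) (hQ : 3 ≤ Q ∨ Q ≤ -2) :
    LinearIndependent ℚ ![(1 : ℝ), Real.log (1 - 1 / (Q : ℝ)),
      ∑' k : ℕ, (1 / (Q : ℝ)) ^ (k + 1) / ((k : ℝ) + 1) ^ 2] ∧
    LinearIndependent ℚ ![(1 : ℂ), ((Real.log (1 - 1 / (Q : ℝ)) : ℝ) : ℂ),
      ((∑' k : ℕ, (1 / (Q : ℝ)) ^ (k + 1) / ((k : ℝ) + 1) ^ 2 : ℝ) : ℂ),
      2 * (Real.pi : ℂ) * Complex.I, 2 * (Real.pi : ℂ) * Complex.I * Complex.log (Q : ℂ)] := by
  have hQ2 : 2 ≤ |Q| := by
    rcases hQ with h | h
    · rw [abs_of_nonneg (by omega)]; omega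
    · rw [abs_of_nonpos (by omega)]; omega
  refine ⟨?_, ?_⟩
  · rw [Fintype.linearIndependent_iff]
    intro g hg
    simp only [Fin.sum_univ_three, Matrix.cons_val_zero, Matrix.cons_val_one, Matrix.cons_val_two,
      Matrix.head_cons, Matrix.tail_cons, Rat.smul_def, mul_one] at hg
    obtain ⟨h0, h1, h2⟩ := indep_rat hQ (x := g 0) (y := g 1) (z := g 2) hg
    intro i
    fin_cases i
    · exact h0
    · exact h1
    · exact h2
  · rw [Fintype.linearIndependent_iff]
    intro g hg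
    rw [Fin.sum_univ_five] at hg
    simp only [Rat.smul_def] at hg
    obtain ⟨A, hA⟩ : ∃ A : ℝ, A = Real.log (1 - 1 / (Q : ℝ)) := ⟨_, rfl⟩
    obtain ⟨B, hB⟩ : ∃ B : ℝ, B = ∑' k : ℕ, (1 / (Q : ℝ)) ^ (k + 1) / ((k : ℝ) + 1) ^ 2 := ⟨_, rfl⟩
    obtain ⟨θ, hθ⟩ : ∃ θ : ℝ, θ = (Complex.log (Q : ℂ)).im := ⟨_, rfl⟩
    obtain ⟨ℓ, hℓ⟩ : ∃ ℓ : ℝ, ℓ = Real.log |(Q : ℝ)| := ⟨_, rfl⟩
    have hre : (Complex.log (Q : ℂ)).re = ℓ := by
      rw [Complex.log_re, hℓ, Complex.norm_intCast]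
    have hlog : Complex.log (Q : ℂ) = (ℓ : ℂ) + (θ : ℂ) * Complex.I := by
      rw [← hre, hθ]
      exact (Complex.re_add_im _).symm
    have hg' : ((g 0 : ℚ) : ℂ) * 1 + (g 1 : ℂ) * (A : ℂ) + (g 2 : ℂ) * (B : ℂ) +
        (g 3 : ℂ) * (2 * (Real.pi : ℂ) * Complex.I) +
        (g 4 : ℂ) * (2 * (Real.pi : ℂ) * Complex.I * Complex.log (Q : ℂ)) = 0 := by
      rw [hA, hB]
      exact hg
    rw [hlog] at hg'
    have h1 : (((g 0 : ℝ) + g 1 * A + g 2 * B - 2 * Real.pi * θ * g 4 : ℝ) : ℂ) +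
        ((2 * Real.pi * ((g 3 : ℝ) + g 4 * ℓ) : ℝ) : ℂ) * Complex.I = 0 := by
      push_cast
      linear_combination hg' - (2 * Real.pi * θ * g 4 : ℂ) * Complex.I_sq
    have hreal := congrArg Complex.re h1
    have himag := congrArg Complex.im h1
    rw [Complex.add_re, Complex.ofReal_re, Complex.re_ofReal_mul, Complex.I_re, mul_zero, add_zero,
      Complex.zero_re] at hreal
    rw [Complex.add_im, Complex.ofReal_im, Complex.im_ofReal_mul, Complex.I_im, mul_one, zero_add,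
      Complex.zero_im] at himag
    have himag' : (g 3 : ℝ) + g 4 * Real.log |(Q : ℝ)| = 0 := by
      rw [← hℓ]
      rcases mul_eq_zero.1 himag with h' | h'
      · exact absurd h' (by positivity)
      · exact h'
    obtain ⟨h3, h4⟩ := log_irr hQ2 himag'
    have hreal' : ((g 0 : ℚ) : ℝ) + g 1 * Real.log (1 - 1 / (Q : ℝ)) + g 2 * li Q 2 = 0 := by
      rw [h4] at hreal
      have e : B = li Q 2 := hB
      rw [hA, e] at hreal
      push_cast at hreal
      linarith
    obtain ⟨h0, h1', h2⟩ := indep_rat hQ hreal'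
    intro i
    fin_cases i
    · exact h0
    · exact h1'
    · exact h2
    · exact h3
    · exact h4

end Pool.Agent.Results.MP_1eadae_ag.DilogarithmOneOverQ
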